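import Pool.Agent.H55.CU.Targets

/-!
# ITR: all scales
-/

set_option autoImplicit false

open MeasureTheory ProbabilityTheory Filter Topology
open Pool.Agent.H95 Pool.Agent.H95.Cop Pool.Agent.H96.Cop Pool.Agent.H55.CU
open scoped ENNReal

namespace Pool.Agent.H17.CU

/-- ITR: all scales -/
theorem pf_ITR (hSTP : T_STP) : T_ITR := by
  intro K ν _ α c n0 k S h0 h1 hc hKB hk hn0 hS hM hHS
  have key : ∀ s, s ≤ S → HS K ν α c k s := by
    intro s
    induction s with
    | zero => intro _; exact hHS
    | succ s ih =>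
      intro hs
      refine hSTP K ν α c n0 k s h0 h1 hc hKB hk hn0 ?_ (hM s (by omega)) (ih (by omega))
      exact (mul_le_mul_of_nonneg_left (pow_le_pow_right₀ (by norm_num) hs) h0.le).trans hS
  exact key S le_rfl

end Pool.Agent.H17.CU
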