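import Pool.Agent.H55.CU.Targets

/-!
# NUR: the increments
-/

set_option autoImplicit false

open Pool.Agent.H55.CU

namespace Pool.Agent.H17.CU

/-- NUR: the increments -/
theorem pf_NUR (hTHP : T_THP) (hAEX : T_AEX) : T_NUR := by
  intro α s a h0 h1 hs ha
  have hα14 : α ≤ 1 / 4 := h1.trans (by norm_num)
  obtain ⟨-, t1, -, -, t2⟩ := hTHP α (s + 1) h0 hα14
  obtain ⟨a1, -, -, -, a5, -⟩ := hAEX α (th α (s + 1)) h0 h1 t1 t2
  have hp : (1 : ℝ) ≤ 2 ^ s := one_le_pow₀ (by norm_num)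
  have hp0 : (0 : ℝ) < 2 ^ s := by linarith
  have e1 : 36 * 6 * (5 * 2 ^ 23 * α * 2 ^ s) * 2 ^ 23 = cc α * 2 ^ s := by
    unfold cc
    ring
  unfold rr
  rw [e1]
  refine add_le_add le_rfl ?_
  by_cases hc : a ≤ 8 * 2 ^ s
  · rw [if_pos hc, if_pos hc]
    have hcR : (a : ℝ) ≤ 8 * 2 ^ s := by exact_mod_cast hc
    have ha0 : (0 : ℝ) ≤ a := Nat.cast_nonneg a
    have hA : (0 : ℝ) < 1 + a := by linarith
    have hpow : (0 : ℝ) < α ^ (2 * th α (s + 1)) := Real.rpow_pos_of_pos h0 _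
    have b1 : (10 * α) ^ 2 / α ^ (2 * th α (s + 1)) ≤ 100 := by
      rw [div_le_iff₀ hpow]
      nlinarith
    have hsplit : (1 + (a : ℝ)) ^ (1 + α / 2 ^ (s + 1)) =
        (1 + (a : ℝ)) * (1 + (a : ℝ)) ^ (α / 2 ^ (s + 1)) := by
      rw [Real.rpow_add hA, Real.rpow_one]
    have he0 : 0 ≤ α / 2 ^ (s + 1) := by positivity
    have he1 : α / 2 ^ (s + 1) ≤ α := div_le_self h0.le (one_le_pow₀ (by norm_num))
    have hinv : 1 + (a : ℝ) ≤ 1 / α := by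
      rw [le_div_iff₀ h0]
      rw [pow_succ] at hs
      have h2 : (1 + (a : ℝ)) ≤ 9 * 2 ^ s := by linarith
      have h3 : (1 + (a : ℝ)) * α ≤ 9 * 2 ^ s * α := mul_le_mul_of_nonneg_right h2 h0.le
      have h4 : (9 : ℝ) * 2 ^ s * α ≤ 1 := by
        have h5 : α * (2 ^ s * 2) ≤ 1 / 2 ^ 37 := hs
        have h6 : (1 : ℝ) / 2 ^ 37 ≤ 1 / 9 := by norm_num
        nlinarith
      linarith
    have b2 : (1 + (a : ℝ)) ^ (α / 2 ^ (s + 1)) ≤ 2 := by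
      have h2 : (1 + (a : ℝ)) ^ (α / 2 ^ (s + 1)) ≤ (1 / α) ^ (α / 2 ^ (s + 1)) :=
        Real.rpow_le_rpow hA.le hinv he0
      have h3 : (1 / α) ^ (α / 2 ^ (s + 1)) ≤ (1 / α) ^ α :=
        Real.rpow_le_rpow_of_exponent_le (by linarith) he1
      linarith
    have b3 : 0 ≤ (1 + (a : ℝ)) ^ (α / 2 ^ (s + 1)) := Real.rpow_nonneg hA.le _
    have b4 : 0 ≤ (10 * α) ^ 2 / α ^ (2 * th α (s + 1)) := by positivity
    calc 2 * (3 / 2 ^ s) * (10 * α) ^ 2 / α ^ (2 * th α (s + 1)) *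
          (1 + (a : ℝ)) ^ (1 + α / 2 ^ (s + 1))
        = 6 / 2 ^ s * ((10 * α) ^ 2 / α ^ (2 * th α (s + 1))) * ((1 + (a : ℝ)) *
          (1 + (a : ℝ)) ^ (α / 2 ^ (s + 1))) := by
          rw [hsplit]
          ring
      _ ≤ 6 / 2 ^ s * 100 * ((1 + (a : ℝ)) * 2) := by
          refine mul_le_mul (mul_le_mul_of_nonneg_left b1 (by positivity))
            (mul_le_mul_of_nonneg_left b2 hA.le) (mul_nonneg hA.le b3) (by positivity)
      _ = 1200 * (1 + (a : ℝ)) / 2 ^ s := by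
          ring
  · rw [if_neg hc, if_neg hc]

end Pool.Agent.H17.CU
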