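import Pool.Agent.H55.CU.Targets

/-!
# THP: the exponents
-/

set_option autoImplicit false

open Pool.Agent.H55.CU

namespace Pool.Agent.H17.CU

/-- THP: the exponents -/
theorem pf_THP : T_THP := by
  intro α s h0 h1
  have hp : (1 : ℝ) ≤ 2 ^ s := one_le_pow₀ (by norm_num)
  have hp0 : (0 : ℝ) < 2 ^ s := by linarith
  obtain ⟨x, hx⟩ : ∃ x : ℝ, x = α / 2 ^ s := ⟨_, rfl⟩
  have hx0 : 0 < x := by rw [hx]; positivity
  have hx1 : x ≤ α := by
    rw [hx]
    exact div_le_self h0.le hp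
  have hxs : α / 2 ^ (s + 1) = x / 2 := by
    rw [hx, pow_succ, div_div]
  have ha : (0 : ℝ) < 1 + α := by linarith
  unfold th
  rw [hxs, ← hx]
  refine ⟨?_, ?_, ?_, ?_, ?_⟩
  · rw [div_le_div_iff₀ (by norm_num) ha]
    nlinarith
  · rw [div_le_one ha]
    linarith
  · exact div_le_div_of_nonneg_right (by linarith) ha.le
  · rw [mul_div_cancel₀ _ ha.ne']
  · rw [sub_le_iff_le_add, ← sub_le_iff_le_add', le_div_iff₀ ha]
    nlinarith

end Pool.Agent.H17.CU
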